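import Mathlib

set_option autoImplicit false

open scoped Pointwise

namespace Pool.Agent.H268R4.Quil

variable {G : Type} [Group G]

/-- `E` is a nontrivial elementary abelian `p`-subgroup. -/
def EA (p : ℕ) (E : Subgroup G) : Prop :=
  E ≠ ⊥ ∧ (∀ x ∈ E, ∀ y ∈ E, x * y = y * x) ∧ (∀ x ∈ E, x ^ p = 1)

/-- conjugate `g E g⁻¹`. -/
def cj (g : G) (E : Subgroup G) : Subgroup G := E.comap (MulAut.conj g⁻¹).toMonoidHom

lemma mem_cj (g x : G) (E : Subgroup G) : x ∈ cj g E ↔ g⁻¹ * x * g ∈ E := by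
  simp [cj, Subgroup.mem_comap]

lemma cj_one (E : Subgroup G) : cj 1 E = E := by
  ext x; simp [mem_cj]

lemma cj_mul (g h : G) (E : Subgroup G) : cj (g * h) E = cj g (cj h E) := by
  ext x; simp [mem_cj, mul_assoc]

lemma cj_mono (g : G) {E F : Subgroup G} (h : E ≤ F) : cj g E ≤ cj g F := by
  intro x hx; rw [mem_cj] at *; exact h hx

lemma cj_inv_cj (g : G) (E : Subgroup G) : cj g⁻¹ (cj g E) = E := by
  rw [← cj_mul, inv_mul_cancel, cj_one]

lemma cj_cj_inv (g : G) (E : Subgroup G) : cj g (cj g⁻¹ E) = E := by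
  rw [← cj_mul, mul_inv_cancel, cj_one]

lemma cj_bot (g : G) : cj g (⊥ : Subgroup G) = ⊥ := by
  ext x
  simp only [mem_cj, Subgroup.mem_bot]
  constructor
  · intro h
    have : x = g * (g⁻¹ * x * g) * g⁻¹ := by group
    rw [this, h]; simp
  · rintro rfl; simp

lemma EA_cj {p : ℕ} (g : G) {E : Subgroup G} (h : EA p E) : EA p (cj g E) := by
  obtain ⟨h1, h2, h3⟩ := h
  refine ⟨?_, ?_, ?_⟩
  · intro hb
    apply h1
    rw [← cj_inv_cj g E, hb, cj_bot]
  · intro x hx y hy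
    rw [mem_cj] at hx hy
    have := h2 _ hx _ hy
    have e1 : g⁻¹ * x * g * (g⁻¹ * y * g) = g⁻¹ * (x * y) * g := by group
    have e2 : g⁻¹ * y * g * (g⁻¹ * x * g) = g⁻¹ * (y * x) * g := by group
    rw [e1, e2] at this
    exact mul_left_cancel (mul_right_cancel this)
  · intro x hx
    rw [mem_cj] at hx
    have := h3 _ hx
    have e1 : (g⁻¹ * x * g) ^ p = g⁻¹ * x ^ p * g := by
      have := conj_pow (a := g⁻¹) (b := x) (i := p)
      simpa using this
    rw [e1] at this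
    have e2 : x ^ p = g * (g⁻¹ * x ^ p * g) * g⁻¹ := by group
    rw [e2, this]; simp

/-- one step of comparability inside `A_p(G)`. -/
def Stp (p : ℕ) (E F : Subgroup G) : Prop := EA p E ∧ EA p F ∧ (E ≤ F ∨ F ≤ E)

/-- same connected component of `A_p(G)`. -/
def Rch (p : ℕ) : Subgroup G → Subgroup G → Prop := Relation.ReflTransGen (Stp p)

lemma Rch.symm {p : ℕ} {E F : Subgroup G} (h : Rch p E F) : Rch p F E := by
  unfold Rch at *
  induction h with
  | refl => exact Relation.ReflTransGen.refl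
  | tail _ hbc ih => exact Relation.ReflTransGen.head ⟨hbc.2.1, hbc.1, hbc.2.2.symm⟩ ih

lemma Rch.trans {p : ℕ} {E F K : Subgroup G} (h : Rch p E F) (h' : Rch p F K) : Rch p E K :=
  Relation.ReflTransGen.trans h h'

lemma Rch.cj {p : ℕ} (g : G) {E F : Subgroup G} (h : Rch p E F) :
    Rch p (Quil.cj g E) (Quil.cj g F) := by
  unfold Rch at *
  induction h with
  | refl => exact Relation.ReflTransGen.refl
  | tail _ hbc ih =>
    exact ih.tail ⟨EA_cj g hbc.1, EA_cj g hbc.2.1, hbc.2.2.imp (cj_mono g) (cj_mono g)⟩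

/-- The subgroup `E⟨z⟩`. -/
def ext1 (E : Subgroup G) (z : G) (hz : ∀ x ∈ E, z * x = x * z) : Subgroup G where
  carrier := {x | ∃ e ∈ E, ∃ k : ℤ, x = e * z ^ k}
  one_mem' := ⟨1, E.one_mem, 0, by simp⟩
  mul_mem' := by
    rintro a b ⟨e, he, k, rfl⟩ ⟨f, hf, l, rfl⟩
    refine ⟨e * f, E.mul_mem he hf, k + l, ?_⟩
    have : z ^ k * f = f * z ^ k := (show Commute z f from hz f hf).zpow_left k
    rw [zpow_add, mul_assoc, ← mul_assoc (z ^ k), this]
    group
  inv_mem' := by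
    rintro a ⟨e, he, k, rfl⟩
    refine ⟨e⁻¹, E.inv_mem he, -k, ?_⟩
    have : z ^ k * e = e * z ^ k := (show Commute z e from hz e he).zpow_left k
    rw [← this, mul_inv_rev, zpow_neg]

lemma ext1_EA {p : ℕ} {E : Subgroup G} (hE : EA p E) (z : G) (hz : ∀ x ∈ E, z * x = x * z)
    (hzp : z ^ p = 1) : EA p (ext1 E z hz) := by
  have hle : E ≤ ext1 E z hz := fun x hx => ⟨x, hx, 0, by simp⟩
  have hc : ∀ e ∈ E, ∀ k : ℤ, Commute e (z ^ k) := fun e he k =>
    (show Commute e z from (hz e he).symm).zpow_right k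
  refine ⟨?_, ?_, ?_⟩
  · intro hb
    exact hE.1 (le_bot_iff.1 (hb ▸ hle))
  · rintro x ⟨e, he, k, rfl⟩ y ⟨f, hf, l, rfl⟩
    have h1 : Commute e f := hE.2.1 e he f hf
    have : Commute (e * z ^ k) (f * z ^ l) :=
      (h1.mul_right (hc e he l)).mul_left
        ((hc f hf k).symm.mul_right ((Commute.refl z).zpow_zpow k l))
    exact this
  · rintro x ⟨e, he, k, rfl⟩
    rw [(hc e he k).mul_pow, hE.2.2 e he, one_mul, ← zpow_natCast, ← zpow_mul, mul_comm,
      zpow_mul, zpow_natCast, hzp, one_zpow]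

lemma zp_EA {p : ℕ} {z : G} (hz : z ≠ 1) (hzp : z ^ p = 1) : EA p (Subgroup.zpowers z) := by
  refine ⟨?_, ?_, ?_⟩
  · simpa [Subgroup.zpowers_eq_bot] using hz
  · rintro x ⟨k, rfl⟩ y ⟨l, rfl⟩
    exact ((Commute.refl z).zpow_zpow k l)
  · rintro x ⟨k, rfl⟩
    simp only
    rw [← zpow_natCast, ← zpow_mul, mul_comm, zpow_mul, zpow_natCast, hzp, one_zpow]

lemma rch_of_pgroup [Finite G] {p : ℕ} [Fact p.Prime] (P : Subgroup G) (hP : IsPGroup p P)
    (hne : P ≠ ⊥) :
    ∃ Z : Subgroup G, EA p Z ∧ ∀ E, EA p E → E ≤ P → Rch p Z E := by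
  have : Nontrivial P := (Subgroup.nontrivial_iff_ne_bot P).2 hne
  have := hP.center_nontrivial
  have hZ : IsPGroup p (Subgroup.center P) := hP.to_subgroup _
  obtain ⟨n, hn, hcard⟩ := (IsPGroup.nontrivial_iff_card hZ).1 inferInstance
  have hdvd : p ∣ Nat.card (Subgroup.center P) := by
    rw [hcard]; exact dvd_pow_self p (by omega)
  obtain ⟨z, hz⟩ := exists_prime_orderOf_dvd_card' p hdvd
  have hz1 : ((z : P) : G) ≠ 1 := by
    intro h
    have : z = 1 := by
      apply Subtype.ext; apply Subtype.ext; simpa using h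
    rw [this, orderOf_one] at hz
    exact (Fact.out : p.Prime).one_lt.ne hz
  have hzp : ((z : P) : G) ^ p = 1 := by
    have : z ^ p = 1 := by rw [← hz]; exact pow_orderOf_eq_one z
    have h2 := congrArg (fun t : Subgroup.center P => ((t : P) : G)) this
    simpa using h2
  have hcomm : ∀ x ∈ P, ((z : P) : G) * x = x * ((z : P) : G) := by
    intro x hx
    have := (Subgroup.mem_center_iff.1 z.2) ⟨x, hx⟩
    have h2 := congrArg (fun t : P => (t : G)) this
    simpa using h2.symm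
  refine ⟨Subgroup.zpowers ((z : P) : G), zp_EA hz1 hzp, ?_⟩
  intro E hE hEP
  have hzE : ∀ x ∈ E, ((z : P) : G) * x = x * ((z : P) : G) := fun x hx => hcomm x (hEP hx)
  have hX := ext1_EA hE ((z : P) : G) hzE hzp
  have hEX : E ≤ ext1 E ((z : P) : G) hzE := fun x hx => ⟨x, hx, 0, by simp⟩
  have hZX : Subgroup.zpowers ((z : P) : G) ≤ ext1 E ((z : P) : G) hzE := by
    rw [Subgroup.zpowers_le]
    exact ⟨1, E.one_mem, 1, by simp⟩
  exact (Relation.ReflTransGen.single ⟨zp_EA hz1 hzp, hX, Or.inl hZX⟩).tail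
    ⟨hX, hE, Or.inr hEX⟩

lemma EA_pgroup {p : ℕ} {E : Subgroup G} (h : EA p E) : IsPGroup p E := by
  intro x
  exact ⟨1, by apply Subtype.ext; simpa using h.2.2 x x.2⟩

lemma conj_rch [Finite G] {p : ℕ} [Fact p.Prime] {E F : Subgroup G} (hE : EA p E) (hF : EA p F) :
    ∃ x : G, Rch p (cj x E) F := by
  obtain ⟨P, hP⟩ := (EA_pgroup hE).exists_le_sylow
  obtain ⟨Q, hQ⟩ := (EA_pgroup hF).exists_le_sylow
  obtain ⟨x, hx⟩ := MulAction.exists_smul_eq G P Q
  have hQne : (Q : Subgroup G) ≠ ⊥ := by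
    intro h; exact hF.1 (le_bot_iff.1 (h ▸ hQ))
  obtain ⟨Z, hZ, hall⟩ := rch_of_pgroup (Q : Subgroup G) Q.2 hQne
  refine ⟨x, (hall (cj x E) (EA_cj x hE) ?_).symm.trans (hall F hF hQ)⟩
  intro y hy
  rw [mem_cj] at hy
  rw [← hx]
  have h3 : x⁻¹ * y * x ∈ (P : Subgroup G) := hP hy
  have : y ∈ (MulAut.conj x) • (P : Subgroup G) := by
    rw [Subgroup.mem_pointwise_smul_iff_inv_smul_mem]
    simpa [← map_inv] using h3
  exact this

/-- The stabiliser of the component of `E`. -/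
def stab (p : ℕ) (E : Subgroup G) : Subgroup G where
  carrier := {x | Rch p E (cj x E)}
  one_mem' := by
    show Rch p E (cj 1 E)
    rw [cj_one]; exact Relation.ReflTransGen.refl
  mul_mem' := by
    intro a b ha hb
    show Rch p E (cj (a * b) E)
    rw [cj_mul]
    exact Rch.trans ha (Rch.cj a hb)
  inv_mem' := by
    intro a ha
    show Rch p E (cj a⁻¹ E)
    have := Rch.cj a⁻¹ ha
    rw [cj_inv_cj] at this
    exact this.symm

/-- Jordan: a proper subgroup misses a conjugacy class. -/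
lemma jordan [Finite G] (M : Subgroup G) (hM : M ≠ ⊤) : ∃ g : G, ∀ x : G, x⁻¹ * g * x ∉ M := by
  classical
  by_contra hcon
  push Not at hcon
  have := Fintype.ofFinite G
  have : Fintype (G ⧸ M) := Fintype.ofFinite _
  have hB := MulAction.sum_card_fixedBy_eq_card_orbits_mul_card_group G (G ⧸ M)
  have horb : Fintype.card (Quotient (MulAction.orbitRel G (G ⧸ M))) = 1 := by
    rw [Fintype.card_eq_one_iff]
    refine ⟨Quotient.mk _ ((1 : G) : G ⧸ M), ?_⟩
    intro y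
    induction y using Quotient.inductionOn with
    | h y =>
      apply Quotient.sound
      exact MulAction.exists_smul_eq G _ _
  rw [horb, one_mul] at hB
  have hfix : ∀ g : G, 1 ≤ Fintype.card (MulAction.fixedBy (G ⧸ M) g) := by
    intro g
    obtain ⟨x, hx⟩ := hcon g
    rw [Nat.one_le_iff_ne_zero, ← Nat.pos_iff_ne_zero, Fintype.card_pos_iff]
    refine ⟨⟨(x : G ⧸ M), ?_⟩⟩
    rw [MulAction.mem_fixedBy]
    show ((g * x : G) : G ⧸ M) = (x : G ⧸ M)
    rw [eq_comm, QuotientGroup.eq]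
    simpa [mul_assoc] using hx
  have h1 : 2 ≤ Fintype.card (MulAction.fixedBy (G ⧸ M) (1 : G)) := by
    have hidx : 1 < Fintype.card (G ⧸ M) := by
      rw [Fintype.one_lt_card_iff]
      by_contra hno
      push Not at hno
      apply hM
      rw [eq_top_iff]
      intro g _
      have := hno ((1 : G) : G ⧸ M) (g : G ⧸ M)
      rw [QuotientGroup.eq] at this
      simpa using this
    have : Fintype.card (MulAction.fixedBy (G ⧸ M) (1 : G)) = Fintype.card (G ⧸ M) := by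
      apply Fintype.card_congr
      refine Equiv.subtypeUnivEquiv ?_
      intro x
      rw [MulAction.mem_fixedBy, one_smul]
    omega
  have h2 : (∑ g : G, 1) < ∑ g : G, Fintype.card (MulAction.fixedBy (G ⧸ M) g) := by
    apply Finset.sum_lt_sum
    · intro g _; exact hfix g
    · exact ⟨1, Finset.mem_univ _, by omega⟩
  rw [hB] at h2
  simp at h2

/-- The reduced Euler characteristic of `A_p(G)^g`. -/
noncomputable def chi (p : ℕ) (g : G) : ℤ :=
  ∑ᶠ (s : Finset (Subgroup G))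
    (_ : IsChain (· ≤ ·) (s : Set (Subgroup G)) ∧
      ∀ E ∈ s, E ≠ ⊥ ∧ (∀ x ∈ E, ∀ y ∈ E, x * y = y * x) ∧
        (∀ x ∈ E, x ^ p = 1) ∧ (∀ x : G, x ∈ E ↔ g * x * g⁻¹ ∈ E)),
    ((-1 : ℤ) ^ (s.card + 1))

lemma chi_of_empty {p : ℕ} {g : G} (h : ∀ E : Subgroup G, EA p E → ¬ (∀ x : G, x ∈ E ↔ g * x * g⁻¹ ∈ E)) :
    chi p g = -1 := by
  classical
  unfold chi
  rw [finsum_eq_single _ (∅ : Finset (Subgroup G))]
  · rw [finsum_eq_if]
    rw [if_pos]
    · simp
    · simp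
  · intro s hs
    rw [finsum_eq_if, if_neg]
    rintro ⟨_, h2⟩
    obtain ⟨E, hE⟩ := Finset.nonempty_iff_ne_empty.2 hs
    obtain ⟨a, b, c, d⟩ := h2 E hE
    exact h E ⟨a, b, c⟩ d

theorem disc' [Finite G] {p : ℕ} (hp : p.Prime) {E0 F0 : Subgroup G} (hE : EA p E0) (hF : EA p F0)
    (hd : ¬ Rch p E0 F0) :
    ∃ g : G, (∀ E : Subgroup G, EA p E → ¬ (∀ x : G, x ∈ E ↔ g * x * g⁻¹ ∈ E)) ∧ chi p g = -1 := by
  have : Fact p.Prime := ⟨hp⟩
  have hM : stab p E0 ≠ ⊤ := by
    intro htop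
    obtain ⟨x, hx⟩ := conj_rch hE hF
    have : x ∈ stab p E0 := htop ▸ Subgroup.mem_top x
    exact hd (Rch.trans this hx)
  obtain ⟨g, hg⟩ := jordan _ hM
  have key : ∀ E : Subgroup G, EA p E → ¬ (∀ x : G, x ∈ E ↔ g * x * g⁻¹ ∈ E) := by
    intro E hEE hst
    have hEg : cj g E = E := by
      ext x
      rw [mem_cj]
      have := hst (g⁻¹ * x * g)
      rw [this]
      have e : g * (g⁻¹ * x * g) * g⁻¹ = x := by group
      rw [e]
    obtain ⟨x, hx⟩ := conj_rch hE hEE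
    have h2 := Rch.cj g hx
    rw [hEg, ← cj_mul] at h2
    have h3 := Rch.cj x⁻¹ (hx.trans h2.symm)
    rw [cj_inv_cj, ← cj_mul] at h3
    apply hg x
    show Rch p E0 (cj (x⁻¹ * g * x) E0)
    rw [mul_assoc]
    exact h3
  exact ⟨g, key, chi_of_empty key⟩

theorem disc [Finite G] {p : ℕ} (hp : p.Prime) {E0 F0 : Subgroup G} (hE : EA p E0) (hF : EA p F0)
    (hd : ¬ Rch p E0 F0) : ∃ g : G, chi p g ≠ 0 := by
  obtain ⟨g, _, hg⟩ := disc' hp hE hF hd
  exact ⟨g, by rw [hg]; norm_num⟩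

end Pool.Agent.H268R4.Quil
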