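import Mathlib

set_option autoImplicit false

namespace Pool.Agent.H268R4.Quil

open SimpleGraph

variable {V : Type} [Fintype V] [DecidableEq V] {Γ : SimpleGraph V}

lemma one_closer (hT : Γ.IsTree) {u x y z : V} (hy : Γ.Adj x y) (hz : Γ.Adj x z)
    (h1 : Γ.dist u y + 1 = Γ.dist u x) (h2 : Γ.dist u z + 1 = Γ.dist u x) : y = z := by
  obtain ⟨p, hp⟩ := hT.1.exists_walk_length_eq_dist u y
  obtain ⟨q, hq⟩ := hT.1.exists_walk_length_eq_dist u z
  have hp' : (p.concat hy.symm).IsPath :=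
    Walk.isPath_of_length_eq_dist _ (by rw [Walk.length_concat, hp, h1])
  have hq' : (q.concat hz.symm).IsPath :=
    Walk.isPath_of_length_eq_dist _ (by rw [Walk.length_concat, hq, h2])
  have h3 := hT.2.path_unique ⟨_, hp'⟩ ⟨_, hq'⟩
  have h4 := congrArg (fun w : Γ.Path u x => (w : Γ.Walk u x).penultimate) h3
  simpa using h4

lemma dist_pm (hC : Γ.Connected) (c : Γ.Coloring Bool) {u x y : V} (hy : Γ.Adj x y) :
    Γ.dist u y = Γ.dist u x + 1 ∨ Γ.dist u y + 1 = Γ.dist u x := by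
  have hd : Γ.dist x y = 1 := dist_eq_one_iff_adj.2 hy
  have t1 : Γ.dist u y ≤ Γ.dist u x + Γ.dist x y := hC.dist_triangle
  have t2 : Γ.dist u x ≤ Γ.dist u y + Γ.dist y x := hC.dist_triangle
  have hd' : Γ.dist y x = 1 := dist_eq_one_iff_adj.2 hy.symm
  have hne : Γ.dist u x ≠ Γ.dist u y := by
    intro heq
    obtain ⟨p, hp⟩ := hC.exists_walk_length_eq_dist u x
    obtain ⟨q, hq⟩ := hC.exists_walk_length_eq_dist u y
    have a1 := c.even_length_iff_congr p
    have a2 := c.even_length_iff_congr q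
    rw [hp, heq] at a1
    rw [hq] at a2
    have a3 : c x ≠ c y := c.valid hy
    rw [a1] at a2
    revert a2 a3
    cases c x <;> cases c y <;> cases c u <;> simp
  omega

/-- sum of squared distances -/
noncomputable def ff (Γ : SimpleGraph V) (v : V) : ℤ := ∑ u : V, ((Γ.dist u v : ℤ)) ^ 2

lemma ff_convex (hT : Γ.IsTree) (c : Γ.Coloring Bool) {x y z : V} (hy : Γ.Adj x y)
    (hz : Γ.Adj x z) (hyz : y ≠ z) : 2 * ff Γ x < ff Γ y + ff Γ z := by
  unfold ff
  rw [Finset.mul_sum, ← Finset.sum_add_distrib]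
  apply Finset.sum_lt_sum_of_nonempty ⟨x, Finset.mem_univ _⟩
  intro u _
  rcases dist_pm hT.1 c (u := u) hy with h1 | h1 <;>
    rcases dist_pm hT.1 c (u := u) hz with h2 | h2
  · rw [h1, h2]; push_cast; nlinarith [Int.natCast_nonneg (Γ.dist u x)]
  · rw [h1, ← h2]; push_cast; nlinarith [Int.natCast_nonneg (Γ.dist u z)]
  · rw [h2, ← h1]; push_cast; nlinarith [Int.natCast_nonneg (Γ.dist u y)]
  · exact absurd (one_closer hT hy hz h1 h2) hyz

lemma ff_walk (hT : Γ.IsTree) (c : Γ.Coloring Bool) {a b : V} (w : Γ.Walk a b) :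
    w.IsPath → ∀ x0, Γ.Adj a x0 → x0 ∉ w.support → ff Γ x0 ≤ ff Γ a →
      ff Γ x0 ≤ ff Γ b ∧ (a ≠ b → ff Γ x0 < ff Γ b) := by
  induction w with
  | nil => intro _ x0 _ _ h; exact ⟨h, fun h' => absurd rfl h'⟩
  | @cons a d b h w' ih =>
    intro hp x0 hadj hx0 hle
    rw [Walk.cons_isPath_iff] at hp
    have hx0d : x0 ≠ d := by
      rintro rfl
      apply hx0
      rw [Walk.support_cons]
      exact List.mem_cons_of_mem _ w'.start_mem_support
    have hcv := ff_convex hT c hadj h hx0d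
    have hlt : ff Γ a < ff Γ d := by linarith
    obtain ⟨i1, i2⟩ := ih hp.1 a h.symm hp.2 hlt.le
    have : ff Γ a < ff Γ b := by
      by_cases hdb : d = b
      · rw [← hdb]; exact hlt
      · exact i2 hdb
    exact ⟨by linarith, fun _ => by linarith⟩

theorem exists_fixed [Nonempty V] (hT : Γ.IsTree) (c : Γ.Coloring Bool) :
    ∃ v : V, ∀ φ : Γ ≃g Γ, (∀ u, c (φ u) = c u) → φ v = v := by
  obtain ⟨v, hv⟩ := Finite.exists_min (ff Γ)
  refine ⟨v, fun φ hφ => ?_⟩
  by_contra hne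
  have hdist : ∀ (ψ : Γ ≃g Γ) (a b : V), Γ.dist (ψ a) (ψ b) ≤ Γ.dist a b := by
    intro ψ a b
    obtain ⟨p, hp⟩ := hT.1.exists_walk_length_eq_dist a b
    have := dist_le (p.map ψ.toHom)
    rw [Walk.length_map, hp] at this
    exact this
  have hdist2 : ∀ a b : V, Γ.dist (φ a) (φ b) = Γ.dist a b := by
    intro a b
    apply le_antisymm (hdist φ a b)
    have := hdist φ.symm (φ a) (φ b)
    simpa using this
  have hf : ff Γ (φ v) = ff Γ v := by
    unfold ff
    rw [← Equiv.sum_comp φ.toEquiv]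
    apply Finset.sum_congr rfl
    intro u _
    have : Γ.dist (φ.toEquiv u) (φ v) = Γ.dist u v := hdist2 u v
    rw [this]
  have hcol : c (φ v) = c v := hφ v
  revert hne hf hcol
  generalize φ v = w0
  intro hne hf hcol
  obtain ⟨p, hp⟩ := hT.1.exists_isPath v w0
  cases p with
  | nil => exact hne rfl
  | @cons _ a _ h w' =>
    rw [Walk.cons_isPath_iff] at hp
    obtain ⟨i1, i2⟩ := ff_walk hT c w' hp.1 v h.symm hp.2 (hv a)
    by_cases haw : a = w0
    · subst haw
      exact c.valid h hcol.symm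
    · have := i2 haw
      linarith

end Pool.Agent.H268R4.Quil
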