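import Pool.Agent.H268R4.Disc
import Pool.Agent.H268R4.TreeFix

set_option autoImplicit false

open scoped Pointwise

namespace Pool.Agent.H268R4.Quil

open SimpleGraph

variable {G : Type} [Group G]

/-- comparability graph of `A_p(G)`. -/
def Gam (G : Type) [Group G] (p : ℕ) : SimpleGraph {E : Subgroup G // EA p E} where
  Adj a b := a.1 < b.1 ∨ b.1 < a.1
  symm := ⟨fun _ _ h => h.symm⟩
  loopless := ⟨fun a h => by rcases h with h | h <;> exact lt_irrefl _ h⟩

lemma EA_card_ge [Finite G] {p : ℕ} (hp : p.Prime) {E : Subgroup G} (h : EA p E) :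
    ∃ k, 0 < k ∧ Nat.card E = p ^ k := by
  have : Fact p.Prime := ⟨hp⟩
  have : Nontrivial E := (Subgroup.nontrivial_iff_ne_bot E).2 h.1
  obtain ⟨n, hn, hc⟩ := (IsPGroup.nontrivial_iff_card (EA_pgroup h)).1 inferInstance
  exact ⟨n, hn, hc⟩

lemma card_one_or_two [Finite G] {p : ℕ} (hp : p.Prime) {E : Subgroup G} (h : EA p E)
    (h2 : Nat.card E ≤ p ^ 2) : Nat.card E = p ∨ Nat.card E = p ^ 2 := by
  obtain ⟨k, hk, hc⟩ := EA_card_ge hp h
  rw [hc] at h2
  have : k ≤ 2 := (Nat.pow_le_pow_iff_right hp.one_lt).1 h2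
  rcases (show k = 1 ∨ k = 2 by omega) with rfl | rfl
  · left; simpa using hc
  · right; exact hc

lemma card_lt_of_lt [Finite G] {E F : Subgroup G} (h : E < F) : Nat.card E < Nat.card F := by
  have h1 : (E : Set G) ⊂ (F : Set G) := by
    exact_mod_cast h
  have := Set.ncard_lt_ncard h1 (Set.toFinite _)
  rw [← Nat.card_coe_set_eq, ← Nat.card_coe_set_eq] at this
  exact this

lemma lt_cards [Finite G] {p : ℕ} (hp : p.Prime) (hr : ∀ E : Subgroup G, EA p E → Nat.card E ≤ p ^ 2)
    {E F : Subgroup G} (hE : EA p E) (hF : EA p F) (h : E < F) :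
    Nat.card E = p ∧ Nat.card F = p ^ 2 := by
  have h1 := card_lt_of_lt h
  have hpp : p < p ^ 2 := by nlinarith [hp.one_lt]
  rcases card_one_or_two hp hE (hr E hE) with a | a <;>
    rcases card_one_or_two hp hF (hr F hF) with b | b <;> omega

/-- the colouring by order. -/
noncomputable def col [Finite G] {p : ℕ} (hp : p.Prime)
    (hr : ∀ E : Subgroup G, EA p E → Nat.card E ≤ p ^ 2) : (Gam G p).Coloring Bool :=
  Coloring.mk (fun E => decide (Nat.card E.1 = p)) (by
    intro a b hab
    have hpp : p < p ^ 2 := by nlinarith [hp.one_lt]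
    rcases hab with h | h
    · obtain ⟨h1, h2⟩ := lt_cards hp hr a.2 b.2 h
      have : ¬ (Nat.card b.1 = p) := by rw [h2]; omega
      simp [h1, this]
    · obtain ⟨h1, h2⟩ := lt_cards hp hr b.2 a.2 h
      have : ¬ (Nat.card a.1 = p) := by rw [h2]; omega
      simp [h1, this])

/-- conjugation as a graph automorphism -/
def conjIso (p : ℕ) (g : G) : Gam G p ≃g Gam G p where
  toFun E := ⟨cj g E.1, EA_cj g E.2⟩
  invFun E := ⟨cj g⁻¹ E.1, EA_cj g⁻¹ E.2⟩
  left_inv E := Subtype.ext (cj_inv_cj g E.1)
  right_inv E := Subtype.ext (cj_cj_inv g E.1)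
  map_rel_iff' := by
    have key : ∀ (g : G) (A B : Subgroup G), A < B → cj g A < cj g B := by
      intro g A B h
      refine lt_of_le_of_ne (cj_mono g h.le) ?_
      intro he
      apply h.ne
      rw [← cj_inv_cj g A, he, cj_inv_cj]
    intro a b
    show (cj g a.1 < cj g b.1 ∨ cj g b.1 < cj g a.1) ↔ (a.1 < b.1 ∨ b.1 < a.1)
    constructor
    · rintro (h | h)
      · left; have := key g⁻¹ _ _ h; rwa [cj_inv_cj, cj_inv_cj] at this
      · right; have := key g⁻¹ _ _ h; rwa [cj_inv_cj, cj_inv_cj] at this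
    · rintro (h | h)
      · left; exact key g _ _ h
      · right; exact key g _ _ h

lemma card_cj [Finite G] (g : G) (E : Subgroup G) : Nat.card (cj g E) = Nat.card E := by
  apply Nat.card_congr
  refine ⟨fun x => ⟨g⁻¹ * x.1 * g, (mem_cj g x.1 E).1 x.2⟩,
    fun x => ⟨g * x.1 * g⁻¹, by rw [mem_cj]; convert x.2 using 1; group⟩, ?_, ?_⟩
  · intro x; apply Subtype.ext; simp only; group
  · intro x; apply Subtype.ext; simp only; group

lemma reach_of_rch {p : ℕ} {E F : Subgroup G} (hE : EA p E) (h : Rch p E F) :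
    ∃ hF : EA p F, (Gam G p).Reachable ⟨E, hE⟩ ⟨F, hF⟩ := by
  unfold Rch at h
  induction h with
  | refl => exact ⟨hE, Reachable.refl _⟩
  | @tail B C _ hbc ih =>
    obtain ⟨hB, hr⟩ := ih
    refine ⟨hbc.2.1, hr.trans ?_⟩
    by_cases he : B = C
    · subst he; exact Reachable.refl _
    · apply Adj.reachable
      rcases hbc.2.2 with h | h
      · exact Or.inl (lt_of_le_of_ne h he)
      · exact Or.inr (lt_of_le_of_ne h (Ne.symm he))

lemma chi_one_form [Finite G] {p : ℕ} (hp : p.Prime)
    (hr : ∀ E : Subgroup G, EA p E → Nat.card E ≤ p ^ 2) (h0 : chi p (1 : G) = 0) :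
    Nat.card (Gam G p).edgeSet + 1 ≤ Nat.card {E : Subgroup G // EA p E} := by
  classical
  have : Fintype (Subgroup G) := Fintype.ofFinite _
  set S : Finset (Finset (Subgroup G)) := Finset.univ.filter (fun s =>
    IsChain (· ≤ ·) (s : Set (Subgroup G)) ∧ ∀ E ∈ s, EA p E) with hS
  have hchi : chi p (1 : G) = ∑ s ∈ S, (-1 : ℤ) ^ (s.card + 1) := by
    unfold chi
    rw [hS, Finset.sum_filter, ← finsum_eq_sum_of_fintype]
    apply finsum_congr
    intro s
    rw [finsum_eq_if]
    apply if_congr _ rfl rfl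
    apply and_congr Iff.rfl
    apply forall₂_congr
    intro E _
    simp [EA]
  have hle2 : ∀ s ∈ S, s.card ≤ 2 := by
    intro s hs
    rw [hS, Finset.mem_filter] at hs
    by_contra hcon
    push Not at hcon
    obtain ⟨A, B, C, hA, hB, hC, hAB, hAC, hBC⟩ := Finset.two_lt_card_iff.1 hcon
    have hch := hs.2.1
    have hpp : p < p ^ 2 := by nlinarith [hp.one_lt]
    have cmp : ∀ X ∈ s, ∀ Y ∈ s, X ≠ Y → Nat.card X ≠ Nat.card Y := by
      intro X hX Y hY hne
      rcases hch (Finset.mem_coe.2 hX) (Finset.mem_coe.2 hY) hne with h | h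
      · exact (card_lt_of_lt (lt_of_le_of_ne h hne)).ne
      · exact (card_lt_of_lt (lt_of_le_of_ne h hne.symm)).ne'
    have c1 := cmp A hA B hB hAB
    have c2 := cmp A hA C hC hAC
    have c3 := cmp B hB C hC hBC
    rcases card_one_or_two hp (hs.2.2 A hA) (hr A (hs.2.2 A hA)) with a | a <;>
    rcases card_one_or_two hp (hs.2.2 B hB) (hr B (hs.2.2 B hB)) with b | b <;>
    rcases card_one_or_two hp (hs.2.2 C hC) (hr C (hs.2.2 C hC)) with c | c <;> omega
  have hsum : ∑ s ∈ S, (-1 : ℤ) ^ (s.card + 1)
      = ((S.filter (fun s => s.card = 1)).card : ℤ) - ((S.filter (fun s => s.card = 0)).card : ℤ)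
        - ((S.filter (fun s => s.card = 2)).card : ℤ) := by
    rw [Finset.card_filter, Finset.card_filter, Finset.card_filter]
    push_cast
    rw [← Finset.sum_sub_distrib, ← Finset.sum_sub_distrib]
    apply Finset.sum_congr rfl
    intro s hs
    have := hle2 s hs
    rcases (show s.card = 0 ∨ s.card = 1 ∨ s.card = 2 by omega) with h | h | h <;> rw [h] <;> simp
  have h_0 : (S.filter (fun s => s.card = 0)).card = 1 := by
    rw [Finset.card_eq_one]
    refine ⟨∅, ?_⟩
    ext s
    rw [Finset.mem_filter, Finset.mem_singleton, Finset.card_eq_zero]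
    constructor
    · exact fun h => h.2
    · rintro rfl
      refine ⟨?_, rfl⟩
      rw [hS, Finset.mem_filter]
      simp
  have h_1 : (S.filter (fun s => s.card = 1)).card ≤ Nat.card {E : Subgroup G // EA p E} := by
    have : Nat.card {E : Subgroup G // EA p E} = (Finset.univ.filter (fun E : Subgroup G => EA p E)).card := by
      rw [Nat.card_eq_fintype_card, Fintype.card_subtype]
    rw [this]
    have hsub : S.filter (fun s => s.card = 1) ⊆
        (Finset.univ.filter (fun E : Subgroup G => EA p E)).image (fun E => ({E} : Finset (Subgroup G))) := by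
      intro s hs
      rw [Finset.mem_filter, hS, Finset.mem_filter] at hs
      obtain ⟨E, rfl⟩ := Finset.card_eq_one.1 hs.2
      rw [Finset.mem_image]
      refine ⟨E, ?_, rfl⟩
      rw [Finset.mem_filter]
      exact ⟨Finset.mem_univ _, hs.1.2.2 E (Finset.mem_singleton_self E)⟩
    exact (Finset.card_le_card hsub).trans Finset.card_image_le
  have h_2 : Nat.card (Gam G p).edgeSet ≤ (S.filter (fun s => s.card = 2)).card := by
    have e1 : Nat.card (Gam G p).edgeSet = (Gam G p).edgeSet.toFinset.card := by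
      rw [Set.toFinset_card, Nat.card_eq_fintype_card]
    rw [e1]
    apply Finset.card_le_card_of_injOn (fun e => e.toFinset.map (Function.Embedding.subtype _))
    · intro e he
      rw [Finset.mem_coe, Set.mem_toFinset] at he
      rw [Finset.mem_coe, Finset.mem_filter, hS, Finset.mem_filter]
      induction e using Sym2.ind with
      | _ a b =>
        rw [mem_edgeSet] at he
        have hne : a ≠ b := he.ne
        refine ⟨⟨Finset.mem_univ _, ?_, ?_⟩, ?_⟩
        · intro X hX Y hY hXY
          simp only [Finset.coe_map, Set.mem_image, Finset.mem_coe, Sym2.mem_toFinset,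
            Sym2.mem_iff, Function.Embedding.subtype_apply] at hX hY
          obtain ⟨x, hx, rfl⟩ := hX
          obtain ⟨y, hy, rfl⟩ := hY
          rcases hx with rfl | rfl <;> rcases hy with rfl | rfl
          · exact absurd rfl hXY
          · exact he.imp le_of_lt le_of_lt
          · exact (he.imp le_of_lt le_of_lt).symm
          · exact absurd rfl hXY
        · intro E hE
          rw [Finset.mem_map] at hE
          obtain ⟨x, _, rfl⟩ := hE
          exact x.2
        · rw [Finset.card_map]
          exact Sym2.card_toFinset_of_not_isDiag _ (by simpa using hne)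
    · intro e _ f _ hef
      have h1 : e.toFinset = f.toFinset := Finset.map_injective _ hef
      apply Sym2.ext
      intro x
      rw [← Sym2.mem_toFinset, ← Sym2.mem_toFinset, h1]
  rw [hchi, hsum, h_0] at h0
  have : (Nat.card (Gam G p).edgeSet : ℤ) + 1 ≤ (Nat.card {E : Subgroup G // EA p E} : ℤ) := by
    have a1 : (((S.filter (fun s => s.card = 1)).card : ℕ) : ℤ) ≤ (Nat.card {E : Subgroup G // EA p E} : ℤ) := by
      exact_mod_cast h_1
    have a2 : (Nat.card (Gam G p).edgeSet : ℤ) ≤ (((S.filter (fun s => s.card = 2)).card : ℕ) : ℤ) := by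
      exact_mod_cast h_2
    push_cast at h0
    linarith
  exact_mod_cast this

theorem rank_two [Finite G] {p : ℕ} (hp : p.Prime)
    (hO : ∀ P : Subgroup G, P.Normal → IsPGroup p P → P = ⊥)
    (hr : ∀ E : Subgroup G, EA p E → Nat.card E ≤ p ^ 2) : ∃ g : G, chi p g ≠ 0 := by
  classical
  by_contra hcon
  push Not at hcon
  have hconn : ∀ E F : Subgroup G, EA p E → EA p F → Rch p E F := by
    intro E F hE hF
    by_contra hno
    obtain ⟨g, hg⟩ := disc hp hE hF hno
    exact hg (hcon g)
  have hne : Nonempty {E : Subgroup G // EA p E} := by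
    by_contra hno
    have := chi_of_empty (p := p) (g := (1 : G)) (fun E hE => absurd ⟨⟨E, hE⟩⟩ hno)
    rw [hcon 1] at this
    norm_num at this
  have : Fintype {E : Subgroup G // EA p E} := Fintype.ofFinite _
  have hC : (Gam G p).Connected := by
    rw [connected_iff]
    refine ⟨?_, hne⟩
    intro a b
    exact (reach_of_rch a.2 (hconn a.1 b.1 a.2 b.2)).2
  have hcard := chi_one_form hp hr (hcon 1)
  have hcard2 := hC.card_vert_le_card_edgeSet_add_one
  have hT : (Gam G p).IsTree := isTree_iff_connected_and_card.2 ⟨hC, le_antisymm hcard hcard2⟩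
  obtain ⟨v, hv⟩ := exists_fixed hT (col hp hr)
  have hfix : ∀ g : G, cj g v.1 = v.1 := by
    intro g
    have := hv (conjIso p g) (by
      intro u
      show decide (Nat.card (cj g u.1) = p) = decide (Nat.card u.1 = p)
      rw [card_cj])
    exact congrArg Subtype.val this
  apply v.2.1
  apply hO v.1 _ (EA_pgroup v.2)
  constructor
  intro n hn g
  have := hfix g
  rw [← this, mem_cj]
  convert hn using 1
  group

end Pool.Agent.H268R4.Quil
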